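import Pool.Agent.Helper54.S4.Stmts

/-! Module F2: the facets through the vertical direction and the second apex. -/

set_option autoImplicit false

namespace Pool.Agent.Helper54.S4

open Finset Pool.Agent.Helper54.SP

theorem f2_s3 (Γ : List Gt) (nw q r : ℕ) (hq : q ≠ 1) : s3 Γ nw 0 q r = true := by
  unfold s3
  rw [if_pos rfl]
  exact decide_eq_true hq

theorem f2_c4 (Γ : List Gt) (nw q r s : ℕ) (hs : s ≠ N4 Γ) (hq : q ≠ 1) :
    c4 Γ nw 0 q r s = if gr r < gr s then s3 Γ nw 0 q r
      else if gr q < gr r then decide (lv Γ nw q < lv Γ nw 0)
      else if gr 0 < gr q then !tb4 (ty s) (la q) (la r) (la s)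
      else l4 (ty s) (la 0) (la q) (la r) (la s) := by
  unfold c4
  rw [if_neg hs, if_neg (by norm_num), if_neg hq]

/-- the value when the points are not in one half gate -/
theorem f2_far (Γ : List Gt) (nw q r s : ℕ) (hs : s ≠ N4 Γ) (hq : q ≠ 1)
    (hlv : lv Γ nw q < lv Γ nw 0) (h : gr r < gr s ∨ gr q < gr r) :
    c4 Γ nw 0 q r s = true := by
  rw [f2_c4 Γ nw q r s hs hq]
  by_cases h1 : gr r < gr s
  · rw [if_pos h1]
    exact f2_s3 Γ nw q r hq
  · rw [if_neg h1]
    rcases h with h | h
    · exact absurd h h1
    · rw [if_pos h]
      exact decide_eq_true hlv

/-- the value inside a half gate -/
theorem f2_in (Γ : List Gt) (nw q r s : ℕ) (hs : s ≠ N4 Γ) (hq : 3 ≤ q) (h1 : gr q = gr r)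
    (h2 : gr r = gr s) : c4 Γ nw 0 q r s = !tb4 (ty s) (la q) (la r) (la s) := by
  rw [f2_c4 Γ nw q r s hs (by omega), if_neg (by omega), if_neg (by omega), if_pos]
  unfold gr
  omega

theorem st_F2 (_hPT4 : ST_PT4) (hAL4 : ST_AL4) (hEV5 : ST_EV5) (hLV4 : ST_LV4)
    (hRB4 : ST_RB4) : ST_F2 := by
  intro Γ nw hWF p q hVL
  obtain ⟨hp2, hqN, hcases⟩ := hVL
  have hpq : p < q := by
    rcases hcases with h | h | h | h
    · omega
    · omega
    · omega
    · omega
  obtain ⟨hlv, -⟩ := hLV4 Γ nw hWF
  obtain ⟨-, hrb, -⟩ := hRB4 Γ nw hWF
  have key : ∀ x, x < N4 Γ + 2 → x ∉ [0, p, q, N4 Γ + 1] →
      ch5 Γ nw ([0, p, q, N4 Γ + 1] ++ [x]) = false := by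
    intro x hx hxf
    simp only [List.mem_cons, List.not_mem_nil, or_false, not_or] at hxf
    obtain ⟨hx0, hxp, hxq, hxN⟩ := hxf
    have hxN' : x < N4 Γ + 1 := by omega
    have h4 : ch4 Γ nw [0, p, q, x] = true := by
      unfold ch4
      obtain ⟨-, A1, -, A3, A4⟩ := hAL4 (c4 Γ nw) 0
      rcases lt_or_gt_of_ne hxq with hxq' | hxq'
      · rcases lt_or_gt_of_ne hxp with hxp' | hxp'
        · -- 0 < x < p
          rw [A3 0 p q x (by omega) hpq (by omega) hxp']
          by_cases hx1 : x = 1
          · rw [hx1]
            unfold c4
            rw [if_neg (by omega), if_neg (by norm_num), if_pos rfl]
            exact f2_s3 Γ nw p q (by omega)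
          · by_cases hg : gr p < gr q ∨ gr x < gr p
            · exact f2_far Γ nw x p q (by omega) hx1 (hlv x (by omega) hx0) hg
            · rw [not_or] at hg
              have e1 : gr x = gr p := by
                have : gr x ≤ gr p := by unfold gr; omega
                omega
              have e2 : gr p = gr q := by
                have : gr p ≤ gr q := by unfold gr; omega
                omega
              have hx3 : 3 ≤ x := by
                unfold gr at e1 e2
                omega
              rw [f2_in Γ nw x p q (by omega) hx3 e1 e2]
              rcases hcases with h | h | h | h
              · exfalso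
                unfold gr at e2
                unfold la at h
                omega
              · exfalso
                unfold gr at e1
                unfold la at h
                omega
              · exfalso
                unfold gr at e1
                unfold la at h
                omega
              · obtain ⟨h3, hl, ht, hq⟩ := h
                have hlq : la q = 5 := by
                  unfold la at hl ⊢
                  omega
                have htq : ty q = true := by
                  rw [← ht]
                  unfold ty
                  rw [e2]
                have hlx : la x < 4 := by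
                  unfold gr at e1
                  unfold la at hl ⊢
                  omega
                rw [hl, hlq, htq]
                obtain ⟨i, hi⟩ : ∃ i, i = la x := ⟨_, rfl⟩
                rw [← hi] at hlx ⊢
                interval_cases i <;> decide
        · -- p < x < q
          rw [A4 0 p q x (by omega) hpq hxp' hxq']
          rcases hcases with h | h | h | h
          · omega
          · obtain ⟨h3, hl, ht, hq⟩ := h
            have e1 : gr p = gr x := by
              unfold la at hl
              unfold gr
              omega
            have e2 : gr x = gr q := by
              unfold la at hl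
              unfold gr
              omega
            rw [f2_in Γ nw p x q (by omega) h3 e1 e2]
            have hlq : la q = 5 := by
              unfold la at hl ⊢
              omega
            have htq : ty q = false := by
              rw [← ht]
              unfold ty
              rw [e1, e2]
            have hlx : 1 ≤ la x ∧ la x < 5 := by
              unfold la at hl ⊢
              omega
            rw [hl, hlq, htq]
            obtain ⟨i, hi⟩ : ∃ i, i = la x := ⟨_, rfl⟩
            rw [← hi] at hlx ⊢
            obtain ⟨hl1, hl2⟩ := hlx
            interval_cases i <;> decide
          · obtain ⟨h3, hl, ht, hq⟩ := h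
            have e1 : gr p = gr x := by
              unfold la at hl
              unfold gr
              omega
            have e2 : gr x = gr q := by
              unfold la at hl
              unfold gr
              omega
            rw [f2_in Γ nw p x q (by omega) h3 e1 e2]
            have hlq : la q = 4 := by
              unfold la at hl ⊢
              omega
            have htq : ty q = true := by
              rw [← ht]
              unfold ty
              rw [e1, e2]
            have hlx : 1 ≤ la x ∧ la x < 4 := by
              unfold la at hl ⊢
              omega
            rw [hl, hlq, htq]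
            obtain ⟨i, hi⟩ : ∃ i, i = la x := ⟨_, rfl⟩
            rw [← hi] at hlx ⊢
            obtain ⟨hl1, hl2⟩ := hlx
            interval_cases i <;> decide
          · omega
      · -- q < x
        rw [A1 0 p q x (by omega) hpq hxq']
        by_cases hxN2 : x = N4 Γ
        · unfold c4
          rw [if_pos hxN2]
          exact f2_s3 Γ nw p q (by omega)
        · by_cases hg : gr q < gr x ∨ gr p < gr q
          · exact f2_far Γ nw p q x hxN2 (by omega) (hlv p (by omega) (by omega)) hg
          · rw [not_or] at hg
            have e1 : gr p = gr q := by
              have : gr p ≤ gr q := by unfold gr; omega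
              omega
            have e2 : gr q = gr x := by
              have : gr q ≤ gr x := by unfold gr; omega
              omega
            rcases hcases with h | h | h | h
            · exfalso
              unfold gr at e1
              unfold la at h
              omega
            · exfalso
              unfold gr at e2
              unfold la at h
              omega
            · obtain ⟨h3, hl, ht, hq⟩ := h
              rw [f2_in Γ nw p q x hxN2 h3 e1 e2]
              have hlq : la q = 4 := by
                unfold la at hl ⊢
                omega
              have hlx : la x = 5 := by
                unfold gr at e2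
                unfold la at hl ⊢
                omega
              have htx : ty x = true := by
                rw [← ht]
                unfold ty
                rw [e1, e2]
              rw [hl, hlq, hlx, htx]
              decide
            · exfalso
              unfold gr at e2
              unfold la at h
              omega
    obtain ⟨-, -, -, E4, -⟩ := hEV5 Γ nw 0 p q (N4 Γ + 1) x
    have h5 : [0, p, q, N4 Γ + 1] ++ [x] = [0, p, q, N4 Γ + 1, x] := rfl
    rw [h5, E4 (hrb 0 (by omega)) (hrb p (by omega)) (hrb q (by omega)) (hrb x hxN'), h4]
    rfl
  intro x y hx hy hxf hyf
  rw [key x hx hxf, key y hy hyf]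

end Pool.Agent.Helper54.S4
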